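import Pool.Agent.U365.POW.J
import Pool.Agent.Results.MP_4eb8d9_nt.MultiplicativeValues

/-!
# The Lang-Waldschmidt inequality for all products whose height is near `s(m)`, `m - φ(m)` or `α m + β f(m)`

Let `s(m)` be the sum of the proper divisors of `m`, let `G` have steps bounded below by a positive constant and growth at most
`v ^ d`, `1 ≤ d < 2`, for example `G v = v`, `κ ≥ 0` and `e = d / 2 + κ < 1`. For a set of `m` of lower density at least `1 - e`
the inequality of Lang and Waldschmidt `|Λ - 1| ≥ max |bᵢ| / (|b₁| ⋯ |bₖ| |a₁| ⋯ |aₖ|) ^ (1 + η)` holds, with constant `1`, for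
EVERY product `Λ = a₁ ^ b₁ ⋯ aₖ ^ bₖ ≠ 1` of powers of nonzero integers (`k` arbitrary) whose height `H` satisfies
`|H - G (s(m))| ≤ s(m) ^ κ`, and every `η ≥ 0`; the same holds for `m - φ(m)`. More precisely this holds for almost all `m` with
a divisor `≥ m ^ (e + ρ)` which is a prime or the product of two different primes, and for the values `g = α m + β f(m)` of
multiplicative functions with `f p = p + c` at the primes, uniformly in `|α|, |β| ≤ N ^ δ` and with a power saving in the number
of the exceptional `m`.

Proof. The number of the exceptional rational numbers has a power saving (starting theorem). Let `m = k v p` with large primes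
`p ≠ v`. Then `g = A v p + B (v + p) + B c`, `A = α k + β f(k)`, `B = β c f(k)`, and so `(A v + B) (A p + B) = A g + B² - A B c`:
for given `g`, `k`, `α`, `β` there are only `N^o(1)` possibilities for `p` and `v`.
-/

set_option autoImplicit false

namespace Pool.Agent.Results.MP_4eb8d9_nt.AliquotValues

open Finset
open Pool.Agent.U365.POW (Law Values Dens law_of law_mono)
open Pool.Agent.N733.TG (Expanding)
open Pool.Agent.Results.MP_4eb8d9_nt.MultiplicativeValues (ht Holds count)

/-- The inequality holds for ALL rational numbers `L ≠ 1` whose height satisfies `|H(L) - G g| ≤ g ^ κ`, in all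
representations. -/
def Near (G : ℕ → ℝ) (κ : ℝ) (g : ℕ) : Prop :=
  ∀ L : ℚ, L ≠ 1 → |((ht L : ℕ) : ℝ) - G g| ≤ (g : ℝ) ^ κ → Holds L

/-- **Theorem.** Let `G` have steps `≥ a > 0` and growth at most `v ^ d`, `κ ≥ 0` and `e = d / 2 + κ < 1`. The property `Near`
holds for the values `α m + β f(m)` at all but `N ^ (1 - δ)` of the `m ≤ N` with a divisor `≥ m ^ (e + ρ)` which is a prime or
the product of two different primes, and so for `s(m)` and `m - φ(m)` at almost all of these `m` (`Values`), and for `s(m)` and
`m - φ(m)` for a set of `m` of lower density at least `1 - e` (`Dens`). -/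
theorem result : ∀ (G : ℕ → ℝ) (d : ℝ), Expanding G d → ∀ κ : ℝ, 0 ≤ κ → d / 2 + κ < 1 →
    (∀ ρ : ℝ, 0 < ρ → Values (d / 2 + κ + ρ) (Near G κ)) ∧ Dens (1 - (d / 2 + κ)) (Near G κ) := by
  intro G d hG κ hκ h1
  have h2 := law_of (fun L : ℚ => L ≠ 1) Holds (fun L : ℚ => ((ht L : ℕ) : ℝ)) hG
    (s := 1 / 2) (by norm_num) hκ (by linarith) count
  have h3 : Law (d * (1 / 2) + κ) (Near G κ) := law_mono h2 (fun g hg L hL hw => hg L hL hw)
  have e1 : d * (1 / 2) + κ = d / 2 + κ := by ring
  rw [e1] at h3
  exact ⟨h3.2.1, h3.2.2⟩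

end Pool.Agent.Results.MP_4eb8d9_nt.AliquotValues
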