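import Pool.Agent.U513.AP.Sharp
import Pool.Agent.Results.MP_4eb8d9_nt.FewExceptions

/-!
# The Lang-Waldschmidt inequality for all products whose height is near numerators and denominators of Diophantine approximations

Let `α ∈ ℝ ^ d` and consider all its approximations `(k, u_1, …, u_d)` with `|k α_i - γ_i - u_i| ≤ k ^ (-τ)`; for `d = 1`, `γ = 0`,
`τ = 1` these contain the denominators and numerators of all the convergents of the continued fraction of `α`, for `τ = 1 / d` all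
the best simultaneous approximations. We show that for all `α` outside of a set of Hausdorff dimension at most
`(d + 1/2 + w) / (1 + τ)` the inequality of Lang and Waldschmidt `|Λ - 1| ≥ max |bᵢ| / (|b₁| ⋯ |bₘ| |a₁| ⋯ |aₘ|) ^ (1 + η)` holds, with
constant `1`, for EVERY product `Λ = a₁ ^ b₁ ⋯ aₘ ^ bₘ ≠ 1` of powers of nonzero integers (`m` arbitrary) whose numerator or denominator
(so: height) is at a distance of at most `k ^ w` from `a k + b_1 u_1 + ⋯ + b_d u_d`, for every integral linear form `(a, b) ≠ 0` and all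
these approximations with large `k`, and every `η ≥ 0`. For `d = 1`, `τ = 1` this is dimension at most `3 / 4 + w / 2`. The theorem is more general: linear forms
are replaced by all the integral polynomials `P(k, u)` of degree at most `D` with small level sets, with the dimension
`(d + 1 - l + D / 2 + w) / (1 + τ)`, for example `k ^ 2 + u_1 ^ 2 + Q(u_2, …)` with `l = D = 2`, and dimension `(d + w) / (1 + τ)`.

Proof. The theorem `FewExceptions` of this page in the starting library bounds the number of the exceptional `Λ` of height up to `X`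
by `X ^ (1/2 + ε)`; they are in `[1/2, 3/2]`. The integral vectors `(k, u)` with `k ≈ N` and `P(k, u)` near their numerators or
denominators are counted with the level sets of `P` (`U513/AP/Core`), and the sets of the `α` approximated by them, cubes of side `2 N ^ (- 1 - τ)`, are used as the covers in
the definition of the Hausdorff measure. The numbers `k`, `u` have the density zero for a given `α`, so that the bound for the number
of exceptional `Λ` alone does not say anything about them.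
-/

set_option autoImplicit false

open Filter MeasureTheory

namespace Pool.Agent.Results.MP_4eb8d9_nt.Approximations

open Finset

/-- the height of a rational number -/
def ht (L : ℚ) : ℕ := max L.num.natAbs L.den

/-- The inequality of Lang and Waldschmidt holds for `L`, with constant `1` and every exponent `1 + η`, `η ≥ 0`, in every
representation `L = a₁ ^ b₁ ⋯ aₘ ^ bₘ` by nonzero integers: `|L - 1| ≥ B / (|b₁| ⋯ |bₘ| |a₁| ⋯ |aₘ|) ^ (1 + η)`,
`B = max |bᵢ|`. -/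
def Holds (L : ℚ) : Prop :=
  ∀ (η : ℝ) (m : ℕ) (a b : Fin m → ℤ), 0 ≤ η → (∀ i, a i ≠ 0) → (∀ i, b i ≠ 0) →
    ∏ i, ((a i : ℚ) ^ (b i)) = L →
    ((univ.sup fun i => (b i).natAbs : ℕ) : ℝ) /
      ((∏ i, |((b i : ℤ) : ℝ)|) * (∏ i, |((a i : ℤ) : ℝ)|)) ^ (1 + η) ≤ |(L : ℝ) - 1|

/-- The level sets of `P` in the boxes `|w_i| ≤ X` have at most `C X ^ (r - l + ε)` elements. -/
def SmallLevels {r : ℕ} (P : MvPolynomial (Fin r) ℤ) (l : ℝ) : Prop :=
  l ≤ r ∧ ∀ ε : ℝ, 0 < ε → ∃ C : ℝ, ∀ X : ℕ, 1 ≤ X → ∀ v : ℤ,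
    ({w : Fin r → ℤ | (∀ i, |w i| ≤ X) ∧ MvPolynomial.eval w P = v}.ncard : ℝ) ≤ C * (X : ℝ) ^ (r - l + ε)

/-- the polynomial `x_0 ^ 2 + x_1 ^ 2 + Q(x_2, x_3, …)` -/
noncomputable def squaresPlus {r : ℕ} (Q : MvPolynomial (Fin r) ℤ) : MvPolynomial (Fin (r + 2)) ℤ :=
  MvPolynomial.X 0 ^ 2 + MvPolynomial.X 1 ^ 2 + MvPolynomial.rename (fun i : Fin r => i.succ.succ) Q

/-- `(k, u)` is an approximation of `α` of exponent `τ` and shift `γ`: `|k α_i - γ_i - u_i| ≤ k ^ (-τ)` for all `i`. -/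
def Approx {d : ℕ} (τ : ℝ) (γ α : Fin d → ℝ) (k : ℕ) (u : Fin d → ℤ) : Prop :=
  ∀ i, |(k : ℝ) * α i - γ i - u i| ≤ (k : ℝ) ^ (-τ)

lemma count (ε : ℝ) (hε : 0 < ε) : ∃ C : ℝ, ∀ X : ℝ, 1 ≤ X →
    {L : ℚ | (L ≠ 1 ∧ ¬ Holds L) ∧ ((ht L : ℕ) : ℝ) ≤ X}.Finite ∧
      ({L : ℚ | (L ≠ 1 ∧ ¬ Holds L) ∧ ((ht L : ℕ) : ℝ) ≤ X}.ncard : ℝ) ≤ C * X ^ (1 / 2 + ε) := by
  obtain ⟨C, hC⟩ := FewExceptions.result ε hε
  refine ⟨|C|, fun X hX => ?_⟩
  have hX0 : 0 < X := by linarith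
  have hX1 : 1 ≤ ⌊X⌋₊ := Nat.le_floor (by exact_mod_cast hX)
  obtain ⟨h1, h2⟩ := hC ⌊X⌋₊ hX1
  have hsub : {L : ℚ | (L ≠ 1 ∧ ¬ Holds L) ∧ ((ht L : ℕ) : ℝ) ≤ X} ⊆ FewExceptions.Exceptional ⌊X⌋₊ := by
    rintro L ⟨⟨h3, h4⟩, h5⟩
    have h6 : ht L ≤ ⌊X⌋₊ := Nat.le_floor h5
    unfold ht at h6
    refine ⟨h3, (le_max_left _ _).trans h6, (le_max_right _ _).trans h6, ?_⟩
    unfold Holds at h4
    push Not at h4
    obtain ⟨η, m, a, b, g1, g2, g3, g4, g5⟩ := h4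
    exact ⟨η, m, a, b, g1, g2, g3, g4, g5⟩
  refine ⟨h1.subset hsub, ?_⟩
  have h3 : ((⌊X⌋₊ : ℕ) : ℝ) ^ (1 / 2 + ε) ≤ X ^ (1 / 2 + ε) :=
    Real.rpow_le_rpow (Nat.cast_nonneg _) (Nat.floor_le hX0.le) (by positivity)
  calc ({L : ℚ | (L ≠ 1 ∧ ¬ Holds L) ∧ ((ht L : ℕ) : ℝ) ≤ X}.ncard : ℝ)
      ≤ ((FewExceptions.Exceptional ⌊X⌋₊).ncard : ℝ) := by exact_mod_cast Set.ncard_le_ncard hsub h1
    _ ≤ C * ((⌊X⌋₊ : ℕ) : ℝ) ^ (1 / 2 + ε) := h2
    _ ≤ |C| * ((⌊X⌋₊ : ℕ) : ℝ) ^ (1 / 2 + ε) := mul_le_mul_of_nonneg_right (le_abs_self C) (by positivity)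
    _ ≤ |C| * X ^ (1 / 2 + ε) := mul_le_mul_of_nonneg_left h3 (abs_nonneg C)

/-- the exceptional numbers are near `1` -/
lemma near_one {L : ℚ} (h1 : L ≠ 1) (h : ¬ Holds L) : |(L : ℝ) - 1| ≤ 1 / 2 := by
  unfold Holds at h
  push Not at h
  obtain ⟨η, m, a, b, hη, ha, hb, hL, hlt⟩ := h
  obtain ⟨Tb, hTb⟩ : ∃ Tb : ℕ, Tb = ∏ i, (b i).natAbs := ⟨_, rfl⟩
  obtain ⟨Ta, hTa⟩ : ∃ Ta : ℕ, Ta = ∏ i, (a i).natAbs := ⟨_, rfl⟩
  have hTb0 : 0 < Tb := by rw [hTb]; exact Finset.prod_pos fun i _ => Int.natAbs_pos.2 (hb i)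
  have hTa0 : 0 < Ta := by rw [hTa]; exact Finset.prod_pos fun i _ => Int.natAbs_pos.2 (ha i)
  have hB : (univ.sup fun i => (b i).natAbs) ≤ Tb := by
    refine Finset.sup_le fun i _ => ?_
    rw [hTb] at hTb0 ⊢
    exact Nat.le_of_dvd hTb0 (Finset.dvd_prod_of_mem (fun i => (b i).natAbs) (mem_univ i))
  have e1 : (∏ i, |((b i : ℤ) : ℝ)|) = (Tb : ℝ) := by
    rw [hTb, Nat.cast_prod]
    exact Finset.prod_congr rfl fun i _ => by rw [Nat.cast_natAbs, Int.cast_abs]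
  have e2 : (∏ i, |((a i : ℤ) : ℝ)|) = (Ta : ℝ) := by
    rw [hTa, Nat.cast_prod]
    exact Finset.prod_congr rfl fun i _ => by rw [Nat.cast_natAbs, Int.cast_abs]
  rw [e1, e2] at hlt
  have hBr : ((univ.sup fun i => (b i).natAbs : ℕ) : ℝ) ≤ Tb := by exact_mod_cast hB
  have hTb1 : (1 : ℝ) ≤ Tb := by exact_mod_cast hTb0
  have hTa1 : (1 : ℝ) ≤ Ta := by exact_mod_cast hTa0
  have hT1 : (1 : ℝ) ≤ Tb * Ta := by nlinarith
  have hpow : (Tb * Ta : ℝ) ≤ (Tb * Ta : ℝ) ^ (1 + η) := by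
    calc (Tb * Ta : ℝ) = (Tb * Ta : ℝ) ^ (1 : ℝ) := (Real.rpow_one _).symm
      _ ≤ _ := Real.rpow_le_rpow_of_exponent_le hT1 (by linarith)
  have hq : ((univ.sup fun i => (b i).natAbs : ℕ) : ℝ) / (Tb * Ta : ℝ) ^ (1 + η) ≤ 1 / Ta := by
    calc ((univ.sup fun i => (b i).natAbs : ℕ) : ℝ) / (Tb * Ta : ℝ) ^ (1 + η) ≤ Tb / (Tb * Ta : ℝ) := by
          apply div_le_div₀ (by linarith) hBr (by linarith) hpow
      _ = 1 / Ta := by field_simp
  have hlt2 := hlt.le.trans hq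
  by_cases hc : ∀ i, (a i).natAbs = 1
  · exfalso
    have hsq : L ^ 2 = 1 := by
      rw [← hL, ← Finset.prod_pow]
      refine Finset.prod_eq_one fun i _ => ?_
      rcases Int.natAbs_eq_iff.1 (hc i) with h2 | h2
      · rw [h2]
        simp
      · rw [h2, ← zpow_natCast, ← zpow_mul, mul_comm, zpow_mul]
        simp
    rcases mul_self_eq_one_iff.1 (show L * L = 1 by rw [← sq]; exact hsq) with h2 | h2
    · exact h1 h2
    · rw [h2] at hlt2
      have h3 : |((-1 : ℚ) : ℝ) - 1| = 2 := by norm_num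
      rw [h3] at hlt2
      have h4 : (1 : ℝ) / Ta ≤ 1 := by
        rw [div_le_one (by linarith)]
        exact hTa1
      linarith
  · push Not at hc
    obtain ⟨i, hi⟩ := hc
    have h2 : 2 ≤ (a i).natAbs := by
      have := Int.natAbs_pos.2 (ha i)
      omega
    have h3 : (a i).natAbs ≤ Ta := by
      rw [hTa] at hTa0 ⊢
      exact Nat.le_of_dvd hTa0 (Finset.dvd_prod_of_mem (fun i => (a i).natAbs) (mem_univ i))
    have h4 : (2 : ℝ) ≤ Ta := by exact_mod_cast h2.trans h3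
    refine hlt2.trans ?_
    exact one_div_le_one_div_of_le (by norm_num) h4

lemma ht_le {L : ℚ} (h1 : L ≠ 1) (h : ¬ Holds L) :
    ((ht L : ℕ) : ℝ) ≤ 2 * (L.num.natAbs : ℝ) ∧ ((ht L : ℕ) : ℝ) ≤ 2 * (L.den : ℝ) := by
  have h2 := abs_le.1 (near_one h1 h)
  have hd : (0 : ℝ) < L.den := by exact_mod_cast L.den_pos
  have e1 : (L : ℝ) * L.den = (L.num : ℝ) := by
    have := Rat.mul_den_eq_num L
    exact_mod_cast this
  have hn : (0 : ℝ) ≤ (L.num : ℝ) := by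
    rw [← e1]
    exact mul_nonneg (by linarith) hd.le
  have e2 : ((L.num.natAbs : ℕ) : ℝ) = (L.num : ℝ) := by
    rw [Nat.cast_natAbs, Int.cast_abs, abs_of_nonneg hn]
  have h3 : (L.num : ℝ) ≤ 2 * L.den := by
    rw [← e1]
    exact mul_le_mul_of_nonneg_right (by linarith) hd.le
  have h4 : (L.den : ℝ) ≤ 2 * L.num := by
    rw [← e1]
    nlinarith
  unfold ht
  rw [Nat.cast_max, e2]
  exact ⟨max_le (by linarith) h4, max_le h3 (by linarith)⟩

/-- the absolute values of the numerators and the denominators of the exceptional numbers -/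
def Terms : Set ℝ := (fun L : ℚ => (L.num.natAbs : ℝ)) '' {L : ℚ | L ≠ 1 ∧ ¬ Holds L} ∪
  (fun L : ℚ => (L.den : ℝ)) '' {L : ℚ | L ≠ 1 ∧ ¬ Holds L}

lemma few (ε : ℝ) (hε : 0 < ε) : Pool.Agent.U513.AP.Few Terms (1 / 2 + ε) := by
  obtain ⟨C, hC⟩ := count ε hε
  refine ⟨2 * (C * 2 ^ (1 / 2 + ε)), fun X hX => ?_⟩
  obtain ⟨h1, h2⟩ := hC (2 * X) (by linarith)
  obtain ⟨T, hT⟩ : ∃ T, T = {L : ℚ | (L ≠ 1 ∧ ¬ Holds L) ∧ ((ht L : ℕ) : ℝ) ≤ 2 * X} := ⟨_, rfl⟩
  rw [← hT] at h1 h2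
  have hs : {t | t ∈ Terms ∧ t ≤ X} ⊆ (fun L : ℚ => (L.num.natAbs : ℝ)) '' T ∪ (fun L : ℚ => (L.den : ℝ)) '' T := by
    rintro t ⟨ht1, ht2⟩
    rcases ht1 with ⟨L, ⟨g1, g2⟩, rfl⟩ | ⟨L, ⟨g1, g2⟩, rfl⟩
    · refine Or.inl ⟨L, ?_, rfl⟩
      rw [hT]
      exact ⟨⟨g1, g2⟩, (ht_le g1 g2).1.trans (mul_le_mul_of_nonneg_left ht2 (by norm_num))⟩
    · refine Or.inr ⟨L, ?_, rfl⟩
      rw [hT]
      exact ⟨⟨g1, g2⟩, (ht_le g1 g2).2.trans (mul_le_mul_of_nonneg_left ht2 (by norm_num))⟩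
  have hfin := (h1.image (fun L : ℚ => (L.num.natAbs : ℝ))).union (h1.image (fun L : ℚ => (L.den : ℝ)))
  refine ⟨hfin.subset hs, ?_⟩
  have h3 := (Set.ncard_le_ncard hs hfin).trans (Set.ncard_union_le _ _)
  have h4 := h3.trans (Nat.add_le_add (Set.ncard_image_le h1) (Set.ncard_image_le h1))
  have h5 : ({t | t ∈ Terms ∧ t ≤ X}.ncard : ℝ) ≤ (T.ncard : ℝ) + (T.ncard : ℝ) := by exact_mod_cast h4
  rw [Real.mul_rpow (by norm_num) (by linarith)] at h2
  linarith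

/-- **The inequality of Lang and Waldschmidt near the approximations of almost all points.** For all `d ≥ 1`, `D`, `τ ≥ 0`, `w ≥ 0`, `l`
and all `γ ∈ ℝ ^ d` there is a set `E` of Hausdorff dimension at most `(d + 1 - l + D / 2 + w) / (1 + τ)` (of Lebesgue measure zero if
`D / 2 + w + 1 < l + d τ`), such that for all `α ∉ E` and all integral polynomials `P` in `d + 1` variables of degree at most `D` with
`SmallLevels P l`, for all large `k` and all integral vectors `u` with `|k α_i - γ_i - u_i| ≤ k ^ (-τ)`: the inequality of Lang and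
Waldschmidt holds, with constant `1`, for ALL rational numbers `L ≠ 1` for which the absolute value of the numerator, or the denominator
(in particular: the height) is at a distance of at most `k ^ w` from `P(k, u)`, in all representations. All the nonconstant polynomials, such as the linear forms, have `SmallLevels P 1`, and the polynomials
`x_0 ^ 2 + x_1 ^ 2 + Q(x_2, …)` have `SmallLevels P 2`. -/
theorem result :
    (∀ (d D : ℕ) (τ w l : ℝ) (γ : Fin d → ℝ), 1 ≤ d → 0 ≤ τ → 0 ≤ w →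
      ∃ E : Set (Fin d → ℝ), dimH E ≤ ENNReal.ofReal ((d + 1 - l + D / 2 + w) / (1 + τ)) ∧
        (D / 2 + w + 1 < l + d * τ → volume E = 0) ∧
        ∀ α, α ∉ E → ∀ P : MvPolynomial (Fin (d + 1)) ℤ, P.totalDegree ≤ D → SmallLevels P l →
          ∀ᶠ k : ℕ in atTop, ∀ u : Fin d → ℤ, Approx τ γ α k u → ∀ L : ℚ, L ≠ 1 → ∀ n : ℕ, (n = L.num.natAbs ∨ n = L.den) →
            |(n : ℝ) - (MvPolynomial.eval (Fin.cons (k : ℤ) u : Fin (d + 1) → ℤ) P : ℤ)| ≤ (k : ℝ) ^ w →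
              Holds L) ∧
    (∀ (r : ℕ) (P : MvPolynomial (Fin r) ℤ), (∀ c : ℤ, P ≠ MvPolynomial.C c) → SmallLevels P 1) ∧
    ∀ (r : ℕ) (Q : MvPolynomial (Fin r) ℤ), SmallLevels (squaresPlus Q) 2 := by
  refine ⟨?_, fun r P hP => Pool.Agent.U513.AP.lev_one P hP, fun r Q => Pool.Agent.U513.AP.lev_squares Q⟩
  intro d D τ w l γ hd hτ hw
  obtain ⟨E, h1, h2⟩ := Pool.Agent.U513.AP.dim_polys_all (d := d) (w := w) (τ := τ) (l := l) few (by norm_num) hw hτ γ D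
  have h1' : dimH E ≤ ENNReal.ofReal ((d + 1 - l + D / 2 + w) / (1 + τ)) := by
    rwa [show (d : ℝ) + 1 - l + 1 / 2 * D + w = d + 1 - l + D / 2 + w by ring] at h1
  refine ⟨E, h1', fun h => Pool.Agent.U513.AP.null_of_dim hd h1' ?_, fun α hα P hP1 hP2 => ?_⟩
  · rw [div_lt_iff₀ (by linarith)]
    nlinarith
  · filter_upwards [h2 α hα P hP1 hP2] with k hk u hu L hL n hn hle
    by_contra hbad
    have h3 : (n : ℝ) ∈ Terms := by
      rcases hn with rfl | rfl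
      · exact Or.inl ⟨L, ⟨hL, hbad⟩, rfl⟩
      · exact Or.inr ⟨L, ⟨hL, hbad⟩, rfl⟩
    refine hk u hu (n : ℝ) h3 ?_
    have : 0 ≤ (k : ℝ) ^ w := by positivity
    linarith

end Pool.Agent.Results.MP_4eb8d9_nt.Approximations
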