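import Pool.Agent.U536.CF.F
import Pool.Agent.Results.MP_4eb8d9_nt.MultiplicativeValues

/-!
# The Lang-Waldschmidt inequality for all products whose height is near an integer with a large common factor with a value of a multiplicative function

Let `f` be a positive multiplicative function of at most polynomial growth such that `f p ≤ M p` for the large primes `p`,
with different values at different large primes; for example Euler's function or the sum of the divisors. Let `G` have
steps bounded below by a positive constant and growth at most `v^d`, for example `α v^d`. Let `b < 1` and `0 ≤ c < 2 b -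
1`. For all `m ≤ N` but `N exp (-(log N)^c)`, for EVERY integer `w ≥ exp ((log N)^b)` with `gcd(w, f(m)) ≥ w^ρ`, the
inequality of Lang and Waldschmidt `|Λ - 1| ≥ max |bᵢ| / (|b₁| ⋯ |bₖ| |a₁| ⋯ |aₖ|) ^ (1 + η)` holds, with constant `1`,
for EVERY product `Λ = a₁ ^ b₁ ⋯ aₖ ^ bₖ ≠ 1` of powers of nonzero integers (`k` arbitrary) whose height `H` satisfies `|H
- G w| ≤ w ^ κ`, and every `η ≥ 0`, if `κ ≥ 0` and `d / 2 + κ < ρ ≤ 1`. The integers `w` include all large divisors of
`f(m)` and their multiples by small integers; for Euler's function, the orders of the elements of the group of units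
modulo `m`.

Proof. Write `m = k u` with `u` squarefree and composed of primes larger than `N^(1/J)`, `J = (log N)^a`, and `k ≤ exp (4
(log N)^a)`; this is possible for all `m ≤ N` but very few. If `v ∣ f(k) f(u)`, then `v = g v'` with `g ∣ f(k)` and `v' ∣
∏ f(p)`, and the number of such `u ≤ N / k` is at most `N / (k v')` times `(log N)^O(J)` times the number `τ_J(v')` of the
ordered factorizations of `v'` into `J` factors. The inequality `τ_J^q ≤ τ_K` for `K ≥ J^q` and Hölder's inequality bound
the sum over the sparse set of the exceptional `v`. The file `MultiplicativeValues` of the starting library treats the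
integers `w = f(m)`, with `N / (log N)^U` exceptions.
-/

set_option autoImplicit false

namespace Pool.Agent.Results.MP_4eb8d9_nt.CommonFactors

open Finset
open Pool.Agent.N733.TG (LM Expanding lm_totient lm_sigma expanding_pow)
open Pool.Agent.U536.CF (Common common_good common_of_dvd common_order)
open Pool.Agent.Results.MP_4eb8d9_nt.MultiplicativeValues (ht Holds count)

/-- **The Lang-Waldschmidt inequality for all products whose height is near an integer with a large common factor with a value
of a multiplicative function.** Let `f` be multiplicative and positive, of at most polynomial growth, with `f p ≤ M p` at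
the large primes, and injective there. Let `G` have steps `≥ a > 0` and growth at most `v^d`. Let `b < 1` and `0 ≤ c < 2 b
- 1`, `κ ≥ 0` and `d / 2 + κ < ρ ≤ 1`. For all large `N`, for all `m ≤ N` but `N exp (-(log N)^c)`, for EVERY integer `w ≥
exp ((log N)^b)` with `gcd(w, f(m)) ≥ w^ρ`, the inequality of Lang and Waldschmidt `|Λ - 1| ≥ max |bᵢ| / (|b₁| ⋯ |bₖ| |a₁|
⋯ |aₖ|) ^ (1 + η)` holds, with constant `1`, for EVERY product `Λ = a₁ ^ b₁ ⋯ aₖ ^ bₖ ≠ 1` of powers of nonzero integers
(`k` arbitrary) whose height `H` satisfies `|H - G w| ≤ w ^ κ`, and every `η ≥ 0`. All divisors `w ≥ exp ((log N)^b)` of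
`f(m)` are such integers `w`, and for Euler's function the orders `≥ exp ((log N)^b)` of the units modulo `m`. Euler's
function and the sum of the divisors are examples of `f`, and `α v^d` with `α > 0`, `d ≥ 1` is an example of `G`. -/
theorem result :
    (∀ f : ℕ → ℕ, LM f → ∀ (G : ℕ → ℝ) (d : ℝ), Expanding G d → ∀ κ ρ b c : ℝ, 0 ≤ κ → d / 2 + κ < ρ → ρ ≤ 1 →
      b < 1 → 0 ≤ c → c < 2 * b - 1 → ∃ N₀ : ℕ, ∀ N : ℕ, N₀ ≤ N →
        ({m : ℕ | 1 ≤ m ∧ m ≤ N ∧ ¬ ∀ w : ℕ, Common f b ρ N m w → ∀ L : ℚ, L ≠ 1 →
          |((ht L : ℕ) : ℝ) - G w| ≤ (w : ℝ) ^ κ → Holds L}.ncard : ℝ) ≤ N * Real.exp (-(Real.log N ^ c))) ∧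
    (LM Nat.totient ∧ LM (fun m => ∑ d ∈ m.divisors, d)) ∧
    (∀ α d : ℝ, 0 < α → 1 ≤ d → Expanding (fun v => α * (v : ℝ) ^ d) d) ∧
    (∀ (f : ℕ → ℕ) (b ρ : ℝ) (N m w : ℕ), ρ ≤ 1 → Real.exp (Real.log N ^ b) ≤ (w : ℝ) → w ∣ f m → Common f b ρ N m w) ∧
    ∀ (b ρ : ℝ) (N m : ℕ), ρ ≤ 1 → ∀ x : (ZMod m)ˣ, Real.exp (Real.log N ^ b) ≤ (orderOf x : ℝ) →
      Common Nat.totient b ρ N m (orderOf x) := by
  refine ⟨?_, ⟨lm_totient, lm_sigma⟩, fun α d hα hd => expanding_pow hα hd, fun f b ρ N m w hρ hw hd => common_of_dvd hρ hw hd,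
    fun b ρ N m hρ x hx => common_order hρ x hx⟩
  refine fun f hf G d hG κ ρ b c hκ h1 hρ hb hc hcb => ?_
  exact common_good (fun L : ℚ => L ≠ 1) Holds (fun L : ℚ => ((ht L : ℕ) : ℝ)) hf hG
    (s := 1 / 2) (by norm_num) hκ (by linarith) hρ hb hc hcb count

end Pool.Agent.Results.MP_4eb8d9_nt.CommonFactors
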