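import Pool.Agent.U536.DS.F
import Pool.Agent.Results.MP_4eb8d9_nt.MultiplicativeValues

/-!
# The Lang-Waldschmidt inequality for all products whose height is near an integral combination of two divisors of a value
of a multiplicative function

Let `f` be a positive multiplicative function of at most polynomial growth such that `f p ≤ M p` for the large primes `p`,
with different values at different large primes; for example Euler's function or the sum of the divisors. Let `G` have steps
bounded below by a positive constant and growth at most `v^d`, for example `α v^d`. Let `b < 1` and `0 ≤ c < 2 b - 1`. For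
all `m ≤ N` but `N exp (-(log N)^c)`, for EVERY integer `w ≥ exp ((log N)^b)` of the form `w = u s + v t` with divisors `s`,
`t` of `f(m)` and integers `|u|, |v| ≤ exp ((log N)^θ)`, the inequality of Lang and Waldschmidt `|Λ - 1| ≥ max |bᵢ| / (|b₁|
⋯ |bₖ| |a₁| ⋯ |aₖ|) ^ (1 + η)` holds, with constant `1`, for EVERY product `Λ = a₁ ^ b₁ ⋯ aₖ ^ bₖ ≠ 1` of powers of nonzero
integers (`k` arbitrary) whose height `H` satisfies `|H - G w| ≤ w ^ κ`, and every `η ≥ 0`, if `κ ≥ 0` and `d / 2 + κ < 1`,
`θ < b`. The integers `w` include all large divisors of `f(m)` and the large sums and differences of ANY two divisors of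
`f(m)`; for Euler's function, those of the orders of any two units modulo `m`.

Proof. Write `m = k u` with `u` squarefree and composed of primes larger than `N^(1/J)`, `J = (log N)^a`, and `k ≤ exp (4
(log N)^a)`; this is possible for all `m ≤ N` but very few. If `v ∣ f(k) f(u)`, then `v = g v'` with `g ∣ f(k)` and `v' ∣ ∏
f(p)`, and the number of such `u ≤ N / k` is at most `N / (k v')` times `(log N)^O(J)` times the number `τ_J(v')` of the
ordered factorizations of `v'` into `J` factors. Take for `v` the least common multiple of `s` and `t`: the sum of `1 / [s,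
t]` over the pairs `s, t ≤ X` with `u s + v t = w` is at most `4 U (1 + log X) τ(w) / w` if `|u|, |v| ≤ U`; the inequality
`τ_J^q ≤ τ_K` for `K ≥ J^q` and Hölder's inequality bound the sum over the pairs with exceptional `w`. The integers of the
hand-in `CommonFactors` of this page have a large common factor with `f(m)`; the sums and differences of two divisors of
`f(m)` have in general none. The file `MultiplicativeValues` of the starting library treats the integers `w = f(m)` only,
with `N / (log N)^U` exceptions.
-/

set_option autoImplicit false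

namespace Pool.Agent.Results.MP_4eb8d9_nt.DivisorSums

open Finset
open Pool.Agent.N733.TG (LM Expanding lm_totient lm_sigma expanding_pow)
open Pool.Agent.U536.DS (Comb comb_good comb_pm comb_orders)
open Pool.Agent.Results.MP_4eb8d9_nt.MultiplicativeValues (ht Holds count)

/-- **The Lang-Waldschmidt inequality for all products whose height is near an integral combination of two divisors of a value
of a multiplicative function.** Let `f` be multiplicative and positive, of at most polynomial growth, with `f p ≤ M p` at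
the large primes, and injective there. Let `G` have steps `≥ a > 0` and growth at most `v^d`. Let `b < 1` and `0 ≤ c < 2 b -
1`, `κ ≥ 0` and `d / 2 + κ < 1`, `θ < b`. For all large `N`, for all `m ≤ N` but `N exp (-(log N)^c)`, for EVERY integer `w
≥ exp ((log N)^b)` of the form `w = u s + v t` with divisors `s`, `t` of `f(m)` and integers `|u|, |v| ≤ exp ((log N)^θ)`,
the inequality of Lang and Waldschmidt `|Λ - 1| ≥ max |bᵢ| / (|b₁| ⋯ |bₖ| |a₁| ⋯ |aₖ|) ^ (1 + η)` holds, with constant `1`,
for EVERY product `Λ = a₁ ^ b₁ ⋯ aₖ ^ bₖ ≠ 1` of powers of nonzero integers (`k` arbitrary) whose height `H` satisfies `|H -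
G w| ≤ w ^ κ`, and every `η ≥ 0`. All the sums and differences `≥ exp ((log N)^b)` of two divisors of `f(m)` are such
integers `w`, and for Euler's function those of the orders of two units modulo `m`. Euler's function and the sum of the
divisors are examples of `f`, and `α v^d` with `α > 0`, `d ≥ 1` is an example of `G`. -/
theorem result :
    (∀ f : ℕ → ℕ, LM f → ∀ (G : ℕ → ℝ) (d : ℝ), Expanding G d → ∀ κ θ b c : ℝ, 0 ≤ κ → d / 2 + κ < 1 → θ < b →
      b < 1 → 0 ≤ c → c < 2 * b - 1 → ∃ N₀ : ℕ, ∀ N : ℕ, N₀ ≤ N →
        ({m : ℕ | 1 ≤ m ∧ m ≤ N ∧ ¬ ∀ w : ℕ, Comb f b θ N m w → ∀ L : ℚ, L ≠ 1 →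
          |((ht L : ℕ) : ℝ) - G w| ≤ (w : ℝ) ^ κ → Holds L}.ncard : ℝ) ≤ N * Real.exp (-(Real.log N ^ c))) ∧
    (LM Nat.totient ∧ LM (fun m => ∑ d ∈ m.divisors, d)) ∧
    (∀ α d : ℝ, 0 < α → 1 ≤ d → Expanding (fun v => α * (v : ℝ) ^ d) d) ∧
    (∀ (f : ℕ → ℕ) (b θ : ℝ) (N m s t : ℕ), s ∣ f m → t ∣ f m →
      (Real.exp (Real.log N ^ b) ≤ ((s + t : ℕ) : ℝ) → Comb f b θ N m (s + t)) ∧
      (Real.exp (Real.log N ^ b) ≤ ((s - t : ℕ) : ℝ) → Comb f b θ N m (s - t)) ∧
      (Real.exp (Real.log N ^ b) ≤ (s : ℝ) → Comb f b θ N m s)) ∧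
    ∀ (b θ : ℝ) (N m : ℕ) (x y : (ZMod m)ˣ),
      (Real.exp (Real.log N ^ b) ≤ ((orderOf x + orderOf y : ℕ) : ℝ) → Comb Nat.totient b θ N m (orderOf x + orderOf y)) ∧
      (Real.exp (Real.log N ^ b) ≤ ((orderOf x - orderOf y : ℕ) : ℝ) → Comb Nat.totient b θ N m (orderOf x - orderOf y)) := by
  refine ⟨?_, ⟨lm_totient, lm_sigma⟩, fun α d hα hd => expanding_pow hα hd, fun f b θ N m s t hs ht => comb_pm hs ht,
    fun b θ N m x y => comb_orders x y⟩
  refine fun f hf G d hG κ θ b c hκ h1 hθ hb hc hcb => ?_
  exact comb_good (fun L : ℚ => L ≠ 1) Holds (fun L : ℚ => ((ht L : ℕ) : ℝ)) hf hG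
    (s := 1 / 2) (by norm_num) hκ (by linarith) hθ hb hc hcb count

end Pool.Agent.Results.MP_4eb8d9_nt.DivisorSums
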